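import Pool.Agent.helper52.WP.SpecC

set_option autoImplicit false

open Complex Metric Set Filter Topology MeasureTheory
open V3S (UF)
open WP

noncomputable section

namespace WPC

open Classical in
theorem CNT_aux (hNPK : V3.NPK_stmt) (q : ℕ → ℂ) (k : ℕ) (S : Finset ℂ) (c R : ℝ) (hc : 0 < c) (hR : 0 < R)
    (hS : ∀ x ∈ S, ‖x‖ < R) (hq : ∀ j < k, ∀ l < k, j ≠ l → c ≤ ‖q j - q l‖) :
    (S.filter (fun x => ∃ j < k, x = q j)).card ≤ ⌊(1 + 2 * R / c) ^ 2⌋₊ := by
  set T : Finset ℕ := (Finset.range k).filter (fun j => q j ∈ S) with hT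
  have h1 : (S.filter (fun x => ∃ j < k, x = q j)) ⊆ T.image q := by
    intro x hx
    obtain ⟨hx1, j, hj, rfl⟩ := Finset.mem_filter.1 hx
    exact Finset.mem_image_of_mem q (Finset.mem_filter.2 ⟨Finset.mem_range.2 hj, hx1⟩)
  have h2 : (T.card : ℝ) ≤ (1 + 2 * R / c) ^ 2 := by
    refine hNPK ℕ q T c R hc hR ?_ ?_
    · intro i hi l hl hil
      exact hq i (Finset.mem_range.1 (Finset.mem_filter.1 hi).1) l (Finset.mem_range.1 (Finset.mem_filter.1 hl).1) hil
    · intro i hi
      exact hS _ (Finset.mem_filter.1 hi).2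
  exact (Finset.card_le_card h1).trans (Finset.card_image_le.trans (Nat.le_floor h2))

theorem CNT (hCB1 : CB1_stmt) (hCB2 : CB2_stmt) (hNPK : V3.NPK_stmt) : CNT_stmt := by
  classical
  have _ := hCB1
  intro C hC R hR
  obtain ⟨c₀, hc₀, K, _, hK⟩ := hCB2 C hC
  set M : ℕ := ⌊(1 + 2 * R / c₀) ^ 2⌋₊ with hM
  refine ⟨3 * (M + M + 1), ?_⟩
  intro n A D hD S hS
  obtain ⟨_, _, _, _, _, _, h7, _, _⟩ := hK n A D hD
  have hSR : ∀ x ∈ S, ‖x‖ < R := fun x hx => (hS x hx).2
  have hsub : S ⊆ (Finset.univ : Finset (Fin 3)).biUnion (fun i =>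
      (S.filter (fun x => ∃ j < D.k, x = D.p i j)) ∪ (S.filter (fun x => ∃ j < D.k, x = D.p i (j + D.k))) ∪
        {D.p i (2 * D.k)}) := by
    intro x hx
    obtain ⟨⟨i, j, hj, hxj⟩, _⟩ := hS x hx
    refine Finset.mem_biUnion.2 ⟨i, Finset.mem_univ i, ?_⟩
    rcases Nat.lt_or_ge j D.k with h1 | h1
    · exact Finset.mem_union_left _ (Finset.mem_union_left _ (Finset.mem_filter.2 ⟨hx, j, h1, hxj⟩))
    · rcases Nat.lt_or_ge j (2 * D.k) with h2 | h2
      · refine Finset.mem_union_left _ (Finset.mem_union_right _ (Finset.mem_filter.2 ⟨hx, j - D.k, by omega, ?_⟩))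
        rw [hxj]
        congr 1
        omega
      · have h3 : j = 2 * D.k := le_antisymm hj h2
        refine Finset.mem_union_right _ (Finset.mem_singleton.2 ?_)
        rw [hxj, h3]
  calc S.card ≤ _ := Finset.card_le_card hsub
    _ ≤ (Finset.univ : Finset (Fin 3)).card * (M + M + 1) := by
        refine Finset.card_biUnion_le_card_mul _ _ _ ?_
        intro i _
        refine (Finset.card_union_le _ _).trans ?_
        have h1 := CNT_aux hNPK (fun j => D.p i j) D.k S c₀ R hc₀ hR hSR (fun j hj l hl hjl => (h7 i j hj l hl hjl).1)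
        have h2 := CNT_aux hNPK (fun j => D.p i (j + D.k)) D.k S c₀ R hc₀ hR hSR (fun j hj l hl hjl => (h7 i j hj l hl hjl).2)
        have h3 := Finset.card_union_le (S.filter (fun x => ∃ j < D.k, x = D.p i j)) (S.filter (fun x => ∃ j < D.k, x = D.p i (j + D.k)))
        have h4 : ({D.p i (2 * D.k)} : Finset ℂ).card = 1 := Finset.card_singleton _
        omega
    _ = 3 * (M + M + 1) := by simp

end WPC
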